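import Pool.Agent.Helper63.XP.StA

/-!
# Project XP: module S1X (support and size of the new functionals)
-/

set_option autoImplicit false

namespace Pool.Agent.Helper94.XP

open Finset
open Pool.Agent.Helper63.XR (gen blk wt)
open Pool.Agent.Helper63.XP

theorem S1X_wt {lam : ℝ} (hl : 0 < lam) (A n : ℕ) : 0 ≤ wt lam A n ∧ wt lam A n ≤ 1 := by
  unfold wt
  split_ifs with h
  · have h0 : 0 ≤ lam * n := by positivity
    exact ⟨div_nonneg (Nat.cast_nonneg _) h0, div_le_one_of_le₀ h h0⟩
  · exact ⟨le_rfl, zero_le_one⟩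

theorem hS1X : StS1x := by
  intro hG P _ _ k b d m J Q B g S _ _ t p lam Bad l ψ hp hlam hd hlk hP1
  obtain ⟨g1, -, -, g4⟩ := hG P k b d m J Q B g
  refine ⟨?_, ?_⟩
  · intro j hj q i
    have hj' := hj
    simp only [Al, mem_filter, mem_univ, true_and] at hj'
    rcases lt_trichotomy q l with hq | hq | hq
    · -- q < l
      have e : psiN g p lam Bad l ψ q j i = 0 := by
        unfold psiN
        rw [if_neg (by omega), if_neg (by omega)]
      rw [e]
      refine ⟨?_, fun h => absurd rfl h⟩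
      rw [norm_zero]
      positivity
    · subst hq
      have e : psiN g p lam Bad q ψ q j i = if i = j then 1 else 0 := by
        unfold psiN
        rw [if_pos rfl]
      rw [e]
      refine ⟨?_, fun h => ?_⟩
      · rw [Ico_self, prod_empty, Real.one_rpow]
        split_ifs <;> simp
      · have hij : i = j := by
          by_contra h2
          rw [if_neg h2] at h
          exact h rfl
        subst hij
        refine ⟨le_rfl, hlk.le, rfl, ?_⟩
        rw [Nat.sub_self]
        simp [gen]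
    · have e : psiN g p lam Bad l ψ q j i =
          ((wt lam (d l) (Gs g Bad j).card * (d l : ℝ) ^ (1 / p - 1) : ℝ) : ℂ) *
            ∑ u ∈ Gs g Bad j, star (g.σ u.2 j.2) * ψ q u i := by
        unfold psiN
        rw [if_neg (by omega), if_pos hq]
      rw [e]
      obtain ⟨w0, w1⟩ := S1X_wt hlam (d l) (Gs g Bad j).card
      have hd0 : (0 : ℝ) < d l := by exact_mod_cast hd l
      have hD : 0 < (d l : ℝ) ^ (1 / p - 1) := Real.rpow_pos_of_pos hd0 _
      -- members of Gs
      have hmem : ∀ u ∈ Gs g Bad j, u.1 = j.1 ∧ u.2 ∈ g.ch j.2 ∧ u ∈ Al g t (l + 1) := by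
        intro u hu
        unfold Gs at hu
        rw [mem_sdiff, mem_image] at hu
        obtain ⟨⟨c, hc, rfl⟩, -⟩ := hu
        refine ⟨rfl, hc, ?_⟩
        simp only [Al, mem_filter, mem_univ, true_and]
        exact ⟨hj'.1, by rw [g.ch_lev _ c hc, hj'.2]⟩
      have hpr0 : (0 : ℝ) ≤ ∏ a ∈ Ico (l + 1) q, (d a : ℝ) := prod_nonneg fun a _ => Nat.cast_nonneg _
      have hs1 : ‖∑ u ∈ Gs g Bad j, star (g.σ u.2 j.2) * ψ q u i‖ ≤
          (∏ a ∈ Ico (l + 1) q, (d a : ℝ)) ^ (1 / p - 1) := by
        by_cases hex : ∃ u ∈ Gs g Bad j, ψ q u i ≠ 0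
        · obtain ⟨u0, hu0, hne⟩ := hex
          rw [sum_eq_single_of_mem u0 hu0]
          · rw [norm_mul, norm_star, g.uni, one_mul]
            exact (hP1 u0 (hmem u0 hu0).2.2 q i).1
          · intro u hu huu
            by_contra hne'
            have hne'' : ψ q u i ≠ 0 := right_ne_zero_of_mul hne'
            obtain ⟨m1, m2, m3⟩ := hmem u hu
            obtain ⟨m1', m2', m3'⟩ := hmem u0 hu0
            have k1 := ((hP1 u m3 q i).2 hne'').2.2.2
            have k2 := ((hP1 u0 m3' q i).2 hne).2.2.2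
            have hcc : u.2 ≠ u0.2 := by
              intro h
              exact huu (Prod.ext (m1.trans m1'.symm) h)
            exact Finset.disjoint_left.1 (g4 j.2 u.2 m2 u0.2 m2' hcc (q - (l + 1))) k1 k2
        · push Not at hex
          rw [sum_eq_zero fun u hu => by rw [hex u hu, mul_zero], norm_zero]
          exact Real.rpow_nonneg hpr0 _
      refine ⟨?_, fun h => ?_⟩
      · rw [norm_mul, Complex.norm_real, Real.norm_of_nonneg (mul_nonneg w0 hD.le)]
        have hprod : ∏ a ∈ Ico l q, (d a : ℝ) = d l * ∏ a ∈ Ico (l + 1) q, (d a : ℝ) :=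
          prod_eq_prod_Ico_succ_bot hq fun a => (d a : ℝ)
        rw [hprod, Real.mul_rpow hd0.le hpr0]
        calc wt lam (d l) (Gs g Bad j).card * (d l : ℝ) ^ (1 / p - 1) *
              ‖∑ u ∈ Gs g Bad j, star (g.σ u.2 j.2) * ψ q u i‖
            ≤ 1 * (d l : ℝ) ^ (1 / p - 1) * (∏ a ∈ Ico (l + 1) q, (d a : ℝ)) ^ (1 / p - 1) := by
              gcongr
          _ = _ := by rw [one_mul]
      · have hsne : ∑ u ∈ Gs g Bad j, star (g.σ u.2 j.2) * ψ q u i ≠ 0 := right_ne_zero_of_mul h
        obtain ⟨u, hu, hne'⟩ := exists_ne_zero_of_sum_ne_zero hsne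
        have hne : ψ q u i ≠ 0 := right_ne_zero_of_mul hne'
        obtain ⟨m1, m2, m3⟩ := hmem u hu
        obtain ⟨k1, k2, k3, k4⟩ := (hP1 u m3 q i).2 hne
        refine ⟨hq.le, k2, k3.trans m1, ?_⟩
        have e2 : q - l = (q - (l + 1)) + 1 := by omega
        rw [e2, g1, mem_biUnion]
        exact ⟨u.2, m2, k4⟩
  · intro j _ i
    unfold psiN
    rw [if_pos rfl]

end Pool.Agent.Helper94.XP
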